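import Pool.Agent.Y530.TN.Stm

/-!
# TN-CNT: a system inside `C` any two bodies of which are separated by a motion
-/

set_option autoImplicit false

namespace Pool.Agent.Y31.TN.Cnt

open Finset Module Pool.Agent.W824.BJ Pool.Agent.Y530.BB Pool.Agent.Y530.TN

/-- a system inside `C` any two bodies of which are separated by a motion -/
theorem t : S_CNT := by
  classical
  intro V B _ _ β F C hC hF hNR
  by_contra hcon
  obtain ⟨b, hb, b', hb', hbb⟩ := Finset.one_lt_card.1 (show 1 < C.card by omega)
  obtain ⟨n, hn, hne⟩ := hNR b b' hbb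
  apply hne
  let q : B → Option {b : B // b ∉ C} := fun b => if h : b ∉ C then some ⟨b, h⟩ else none
  have hqC : ∀ b ∈ C, q b = none := fun b hb => by
    change (if h : b ∉ C then some (⟨b, h⟩ : {b : B // b ∉ C}) else none) = none
    rw [dif_neg (not_not.2 hb)]
  have hq : Function.Surjective q := by
    intro c
    match c with
    | none => exact ⟨b, hqC b hb⟩
    | some ⟨a, ha⟩ =>
      refine ⟨a, ?_⟩
      change (if h : a ∉ C then some (⟨a, h⟩ : {b : B // b ∉ C}) else none) = _
      rw [dif_pos ha]
  have htop : GB (q ∘ β) F = ⊤ := by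
    rw [eq_top_iff]
    intro m _ u v huv
    have h1 := hF u v huv
    have h2 : (q ∘ β) u = (q ∘ β) v := (hqC _ h1.1).trans (hqC _ h1.2).symm
    rw [h2, sub_self, pr_zero]
  have hcardq : Fintype.card (Option {b : B // b ∉ C}) = Fintype.card B - C.card + 1 := by
    rw [Fintype.card_option, Fintype.card_subtype_compl]
    simp
  have hCB : C.card ≤ Fintype.card B := Finset.card_le_univ C
  have hle : (GB (q ∘ β) F).map (pl q) ≤ GB β F := by
    rintro _ ⟨m, hm, rfl⟩
    exact (pl_mem q).1 hm
  have hfr : finrank (PK V) ↥((GB (q ∘ β) F).map (pl q)) =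
      6 * (Fintype.card B - C.card + 1) := by
    rw [← (Submodule.equivMapOfInjective (pl q) (pl_inj hq) _).finrank_eq, htop,
      finrank_top', hcardq]
  have h1 : (GB (q ∘ β) F).map (pl q) = GB β F := by
    apply Submodule.eq_of_le_of_finrank_le hle
    rw [hfr]
    unfold gb at hcon
    omega
  have h2 : n ∈ GB β F := hn
  rw [← h1] at h2
  obtain ⟨m, -, rfl⟩ := h2
  change m (q b) = m (q b')
  rw [hqC b hb, hqC b' hb']

end Pool.Agent.Y31.TN.Cnt
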